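import Pool.Agent.H97.SD.Targets

/-!
Module TRL of the project SD on `MP_c62aed_lc`: refutations of a renamed formula.
-/

set_option autoImplicit false

open Finset

namespace Pool.Agent.H26.SD

open Pool.Agent.H97.SD

/-- The pull back of a clause. -/
noncomputable def pb {V W : Type} (ι : V ↪ W) (C : Clause W) : Clause V :=
  C.preimage (fun l : V × Bool => (ι l.1, l.2))
    (by
      intro a _ b _ hab
      simp only [Prod.mk.injEq] at hab
      exact Prod.ext (ι.injective hab.1) hab.2)

theorem mem_pb {V W : Type} (ι : V ↪ W) (C : Clause W) (l : V × Bool) :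
    l ∈ pb ι C ↔ (ι l.1, l.2) ∈ C := by
  simp [pb]

theorem pf_TRL (hIDX : P_IDX) : P_TRL := by
  classical
  intro V W _ _ _ ι F P D hR
  obtain ⟨h0, ρ, hρ, hstep⟩ := hR
  let good : Clause W → Prop := fun C => ∀ u : W, (u, false) ∈ C → u ∈ Set.range ι
  let I : Type := {C : Clause W // C ∈ P ∧ good C}
  refine ⟨(P.filter good).image (pb ι), ?_, le_trans Finset.card_image_le
    (Finset.card_le_card (Finset.filter_subset _ _))⟩
  have hgood0 : good ∅ := by
    intro u hu
    simp at hu
  refine hIDX V I F _ (fun i => pb ι i.1) (fun i => ρ i.1) D ⟨∅, h0, hgood0⟩ ?_ hρ ?_ ?_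
  · ext l
    simp [mem_pb]
  · intro C
    constructor
    · intro hC
      obtain ⟨B, hB, hBC⟩ := Finset.mem_image.1 hC
      exact ⟨⟨B, (Finset.mem_filter.1 hB).1, (Finset.mem_filter.1 hB).2⟩, hBC⟩
    · rintro ⟨⟨B, hB1, hB2⟩, hBC⟩
      exact Finset.mem_image.2 ⟨B, Finset.mem_filter.2 ⟨hB1, hB2⟩, hBC⟩
  · rintro ⟨C, hCP, hCg⟩
    rcases hstep C hCP with ⟨A, hA, hAC⟩ | ⟨x, C₀, hC₀, C₁, hC₁, hr₀, hr₁, hs₀, hs₁⟩
    · left
      obtain ⟨A₀, hA₀, rfl⟩ := Finset.mem_image.1 hA
      refine ⟨A₀, hA₀, ?_⟩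
      intro l hl
      rw [mem_pb]
      exact hAC (Finset.mem_image.2 ⟨l, hl, rfl⟩)
    · right
      have hg₀ : good C₀ := by
        intro u hu
        rcases Finset.mem_insert.1 (hs₀ hu) with h | h
        · simp at h
        · exact hCg u h
      by_cases hx : x ∈ Set.range ι
      · obtain ⟨v, rfl⟩ := hx
        have hg₁ : good C₁ := by
          intro u hu
          rcases Finset.mem_insert.1 (hs₁ hu) with h | h
          · simp only [Prod.mk.injEq, and_true] at h
            exact ⟨v, h.symm⟩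
          · exact hCg u h
        refine ⟨v, ⟨C₀, hC₀, hg₀⟩, ⟨C₁, hC₁, hg₁⟩, hr₀, hr₁, ?_, ?_⟩
        · intro l hl
          rw [mem_pb] at hl
          rcases Finset.mem_insert.1 (hs₀ hl) with h | h
          · simp only [Prod.mk.injEq, EmbeddingLike.apply_eq_iff_eq] at h
            exact Finset.mem_insert.2 (Or.inl (Prod.ext h.1 h.2))
          · exact Finset.mem_insert_of_mem ((mem_pb ι C l).2 h)
        · intro l hl
          rw [mem_pb] at hl
          rcases Finset.mem_insert.1 (hs₁ hl) with h | h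
          · simp only [Prod.mk.injEq, EmbeddingLike.apply_eq_iff_eq] at h
            exact Finset.mem_insert.2 (Or.inl (Prod.ext h.1 h.2))
          · exact Finset.mem_insert_of_mem ((mem_pb ι C l).2 h)
      · obtain ⟨v⟩ := (inferInstance : Nonempty V)
        have hsub : pb ι C₀ ⊆ pb ι C := by
          intro l hl
          rw [mem_pb] at hl ⊢
          rcases Finset.mem_insert.1 (hs₀ hl) with h | h
          · simp only [Prod.mk.injEq] at h
            exact absurd ⟨l.1, h.1⟩ hx
          · exact h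
        exact ⟨v, ⟨C₀, hC₀, hg₀⟩, ⟨C₀, hC₀, hg₀⟩, hr₀, hr₀,
          hsub.trans (Finset.subset_insert _ _), hsub.trans (Finset.subset_insert _ _)⟩

end Pool.Agent.H26.SD
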